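import Mathlib
import Pool.Agent.L0h84.WM.Fin

/-!
# The weak maximizing property fails for `(L_p[0,1], L_q[0,1])`, `1 < p ≤ 2 ≤ q < ∞`

For every `1 < p ≤ 2 ≤ q < ∞` with `(p,q) ≠ (2,2)`, over the reals and over the complex numbers,
the pair `(L_p[0,1], L_q[0,1])` fails the weak maximizing property.
-/

namespace Pool.Agent.Results.MP_30e1ee_an.WMPFails

open MeasureTheory Filter Topology
open scoped ENNReal

/-- `T` is norm-attaining: `‖T x‖ = ‖T‖` for some `x` in the unit sphere. -/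
def NormAttaining {𝕜 E F : Type*} [RCLike 𝕜] [NormedAddCommGroup E] [NormedSpace 𝕜 E]
    [NormedAddCommGroup F] [NormedSpace 𝕜 F] (T : E →L[𝕜] F) : Prop :=
  ∃ x : E, ‖x‖ = 1 ∧ ‖T x‖ = ‖T‖

/-- `x` converges weakly to `0`. -/
def WeaklyNull (𝕜 : Type*) {E : Type*} [RCLike 𝕜] [NormedAddCommGroup E] [NormedSpace 𝕜 E]
    (x : ℕ → E) : Prop :=
  ∀ φ : E →L[𝕜] 𝕜, Tendsto (fun n => φ (x n)) atTop (𝓝 0)

/-- `x` is a maximizing sequence for `T`. -/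
def Maximizing {𝕜 E F : Type*} [RCLike 𝕜] [NormedAddCommGroup E] [NormedSpace 𝕜 E]
    [NormedAddCommGroup F] [NormedSpace 𝕜 F] (T : E →L[𝕜] F) (x : ℕ → E) : Prop :=
  (∀ n, ‖x n‖ = 1) ∧ Tendsto (fun n => ‖T (x n)‖) atTop (𝓝 ‖T‖)

/-- The weak maximizing property of the pair `(E, F)`. -/
def WMP (𝕜 E F : Type*) [RCLike 𝕜] [NormedAddCommGroup E] [NormedSpace 𝕜 E]
    [NormedAddCommGroup F] [NormedSpace 𝕜 F] : Prop :=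
  ∀ T : E →L[𝕜] F, (∃ x : ℕ → E, Maximizing T x ∧ ¬ WeaklyNull 𝕜 x) → NormAttaining T

/-- `L_p[0,1]` with Lebesgue measure, over the scalar field `𝕜`. -/
abbrev LpI (𝕜 : Type*) [RCLike 𝕜] (p : ℝ≥0∞) : Type _ :=
  Lp 𝕜 p (volume.restrict (Set.Icc (0 : ℝ) 1))

theorem result {𝕜 : Type*} [RCLike 𝕜] (p q : ℝ≥0∞) [Fact (1 ≤ p)] [Fact (1 ≤ q)]
    (hp : 1 < p) (hp2 : p ≤ 2) (hq2 : 2 ≤ q) (hq : q < ∞) (hpq : ¬ (p = 2 ∧ q = 2)) :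
    ¬ WMP 𝕜 (LpI 𝕜 p) (LpI 𝕜 q) := by
  intro h
  obtain ⟨T, ⟨f, h1, h2, h3⟩, h4⟩ := Pool.Agent.L0h84.WM.main 𝕜 p q hp hp2 hq2 hq hpq
  exact h4 (h T ⟨f, ⟨h1, h2⟩, h3⟩)

end Pool.Agent.Results.MP_30e1ee_an.WMPFails
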